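import Pool.Agent.AEN.Stmts

/-!
# Anderson model, the cheap end: row RAT
-/

set_option autoImplicit false

open MeasureTheory ProbabilityTheory Function Filter

open scoped ENNReal BigOperators InnerProductSpace Topology

noncomputable section

namespace Pool.Agent.AEN.H92

open Pool.Agent.Anderson Pool.Agent.Loc Pool.Agent.Helper54.Bal Pool.Agent.QE

theorem et_anti {m n : ℕ} (h : m ≤ n) : et n ≤ et m := by
  unfold et
  have h1 : (m : ℝ) ≤ n := by exact_mod_cast h
  exact one_div_le_one_div_of_le (by positivity) (by linarith)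

theorem nrm_tendsto (mon : MonStmt) {d : ℕ} {V : Site d → ℝ} {E : ℝ} {x : Site d}
    (h : ¬ Bd V E x) : Tendsto (fun n => ‖Gn V E n x‖) atTop atTop := by
  refine tendsto_atTop_atTop_of_monotone ?_ ?_
  · intro m n hmn
    exact mon d V E (del x) (et n) (et m) (et_pos n) (et_anti hmn)
  · intro C
    by_contra hc
    push Not at hc
    exact h ⟨C, fun n => (hc n).le⟩

theorem prop_upd {d : ℕ} (V : Site d → ℝ) (E s : ℝ) (n : ℕ) :
    ∃ c : ℂ, c ≠ 0 ∧ Gn (Function.update V 0 s) E n 0 = c • Gn V E n 0 := by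
  have h := G_update_del (V := V) (zn_im_ne E n) s
  refine ⟨_, ?_, h⟩
  intro hc
  rw [hc, zero_smul] at h
  exact G_del_ne (zn_im_ne E n) 0 h

theorem nrm_pos {d : ℕ} (V : Site d → ℝ) (E : ℝ) (n : ℕ) (x : Site d) : 0 < ‖Gn V E n x‖ :=
  norm_G_del_pos (zn_im_ne E n) x

theorem rat_ratio {d : ℕ} (V : Site d → ℝ) (E s : ℝ) (n : ℕ) :
    ‖Gn (Function.update V 0 s) E n 0 0‖ / ‖Gn (Function.update V 0 s) E n 0‖ =
      ‖Gn V E n 0 0‖ / ‖Gn V E n 0‖ := by
  obtain ⟨c, hc, he⟩ := prop_upd V E s n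
  have h1 : Gn (Function.update V 0 s) E n 0 0 = c * Gn V E n 0 0 := by
    rw [he]
    rfl
  rw [h1, he, norm_mul, norm_smul]
  exact mul_div_mul_left _ _ (norm_pos_iff.mpr hc).ne'

theorem rat (mon : MonStmt) : RatStmt := by
  intro d V E s
  have hfr : ∀ (U : Site d → ℝ) (n : ℕ), fr U E n = (‖Gn U E n 0 0‖ / ‖Gn U E n 0‖) ^ 2 := by
    intro U n
    unfold fr
    rw [div_pow]
  refine ⟨fun n => ?_, fun hs hV hV' => ?_⟩
  · rw [hfr, hfr, rat_ratio]
  · have hN := nrm_tendsto mon hV
    have hN' := nrm_tendsto mon hV'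
    have h0 : 0 < |s - V 0| := abs_pos.mpr (sub_ne_zero.mpr hs)
    have hb : ∀ n, ‖Gn V E n 0 0‖ / ‖Gn V E n 0‖ ≤
        (‖Gn V E n 0‖⁻¹ + ‖Gn (Function.update V 0 s) E n 0‖⁻¹) / |s - V 0| := by
      intro n
      set N := ‖Gn V E n 0‖ with hNd
      set N' := ‖Gn (Function.update V 0 s) E n 0‖ with hNd'
      have hNp : 0 < N := nrm_pos V E n 0
      have hNp' : 0 < N' := nrm_pos _ E n 0
      set r := ‖Gn V E n 0 0‖ / N with hr
      have hr0 : 0 ≤ r := div_nonneg (norm_nonneg _) hNp.le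
      have hg : ‖Gn V E n 0 0‖ = r * N := by rw [hr, div_mul_cancel₀ _ hNp.ne']
      have hg' : ‖Gn (Function.update V 0 s) E n 0 0‖ = r * N' := by
        rw [hr, hNd, ← rat_ratio V E s n, div_mul_cancel₀ _ hNp'.ne']
      have hG := G_upd (V := V) (zn_im_ne E n) 0 s (del 0)
      have hG2 : Gn V E n 0 0 = Gn (Function.update V 0 s) E n 0 0 +
          (((s : ℂ) - V 0) * Gn (Function.update V 0 s) E n 0 0) * Gn V E n 0 0 := by
        have h1 := congrArg (fun f : L2 d => f 0) hG
        exact h1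
      have hG3 : (((s - V 0 : ℝ) : ℂ) * Gn (Function.update V 0 s) E n 0 0) * Gn V E n 0 0 =
          Gn V E n 0 0 - Gn (Function.update V 0 s) E n 0 0 := by
        rw [eq_sub_iff_add_eq, add_comm, Complex.ofReal_sub]
        exact hG2.symm
      have hG4 : |s - V 0| * (r * N') * (r * N) ≤ r * N + r * N' := by
        rw [← hg, ← hg']
        have h2 := congrArg norm hG3
        rw [norm_mul, norm_mul, Complex.norm_real, Real.norm_eq_abs] at h2
        rw [h2]
        exact norm_sub_le _ _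
      rw [le_div_iff₀ h0]
      rcases hr0.eq_or_lt with h5 | h5
      · rw [← h5, zero_mul]
        positivity
      · have h6 : |s - V 0| * r * (N * N') ≤ N + N' := by
          have h7 : r * (|s - V 0| * r * (N * N')) ≤ r * (N + N') := by nlinarith
          exact le_of_mul_le_mul_left h7 h5
        have h8 : N⁻¹ + N'⁻¹ = (N + N') / (N * N') := by
          field_simp
          ring
        rw [h8, le_div_iff₀ (mul_pos hNp hNp')]
        linarith
    have ht : Tendsto (fun n => (‖Gn V E n 0‖⁻¹ + ‖Gn (Function.update V 0 s) E n 0‖⁻¹) /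
        |s - V 0|) atTop (𝓝 0) := by
      have h1 := (hN.inv_tendsto_atTop.add hN'.inv_tendsto_atTop).div_const |s - V 0|
      rw [add_zero, zero_div] at h1
      exact h1
    have hr : Tendsto (fun n => ‖Gn V E n 0 0‖ / ‖Gn V E n 0‖) atTop (𝓝 0) :=
      squeeze_zero (fun n => div_nonneg (norm_nonneg _) (norm_nonneg _)) hb ht
    have h9 := hr.pow 2
    rw [zero_pow two_ne_zero] at h9
    exact h9.congr fun n => (hfr V n).symm

end Pool.Agent.AEN.H92
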